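import Pool.Agent.Y471.PPC.Dim

/-!
# Almost sure failure of Poissonian pair correlations with an exceptional set of full dimension
-/

set_option autoImplicit false

namespace Pool.Agent.Results.MP_b61c36_nt.FullDimension

open Filter Topology MeasureTheory

/-- `nd y` is the distance from `y` to the nearest integer. -/
noncomputable def nd (y : ℝ) : ℝ := |y - round y|

/-- The number of ordered pairs `(k, l)` with `1 ≤ k, l ≤ N`, `k ≠ l` and `‖x_k - x_l‖ < δ`. -/
noncomputable def pairCount (x : ℕ → ℝ) (N : ℕ) (δ : ℝ) : ℕ :=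
  ((Finset.Icc 1 N ×ˢ Finset.Icc 1 N).filter fun p => p.1 ≠ p.2 ∧ nd (x p.1 - x p.2) < δ).card

/-- The sequence `x_1, x_2, …` has Poissonian pair correlations: for every `s > 0`,
`(1/N) #{(k,l) : 1 ≤ k,l ≤ N, k ≠ l, ‖x_k - x_l‖ < s/N}` tends to `2 s` as `N → ∞`. -/
def HasPPC (x : ℕ → ℝ) : Prop :=
  ∀ s : ℝ, 0 < s →
    Tendsto (fun N : ℕ => (1 / (N : ℝ)) * (pairCount x N (s / N) : ℝ)) atTop (𝓝 (2 * s))

/-- There is a strictly increasing sequence of positive integers `a_1 < a_2 < …` such that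
`{a_n α}` fails to have Poissonian pair correlations for almost every real `α`, while the set of
the `α` for which `{a_n α}` has Poissonian pair correlations has Hausdorff dimension one in every
open interval. -/
theorem result : ∃ a : ℕ → ℤ, StrictMono a ∧ (∀ n, 1 ≤ n → 0 < a n) ∧
    (∀ᵐ α : ℝ, ¬ HasPPC (fun n => Int.fract ((a n : ℝ) * α))) ∧
    ∀ x y : ℝ, x < y →
      dimH {α : ℝ | α ∈ Set.Ioo x y ∧ HasPPC (fun n => Int.fract ((a n : ℝ) * α))} = 1 := by
  refine ⟨PPCCounterexample.aZ, PPCCounterexample.aZ_strictMono, ?_, ?_, ?_⟩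
  · intro n hn
    obtain ⟨m, rfl⟩ : ∃ m, n = m + 1 := ⟨n - 1, by omega⟩
    rw [PPCCounterexample.aZ_succ]
    exact_mod_cast PPCCounterexample.aseq_pos m
  · filter_upwards [PPCCounterexample.partB] with α hα
    have h : HasPPC (fun n => Int.fract ((PPCCounterexample.aZ n : ℝ) * α)) ↔
        PPCCounterexample.PPC (fun n => (PPCCounterexample.aseq n : ℝ) * α) :=
      PPCCounterexample.hasPPC_iff α
    rw [h]
    exact hα
  · intro x y hxy
    apply le_antisymm
    · refine (dimH_mono (Set.subset_univ _)).trans (le_of_eq ?_)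
      rw [Real.dimH_univ]
    · obtain ⟨z, hz⟩ := PPCCounterexample.exists_ppc
      refine (Pool.Agent.Y471.PPC.dim_interval (Pool.Agent.Y471.PPC.vy z) x y hxy).trans
        (dimH_mono ?_)
      rintro α ⟨h1, h2⟩
      refine ⟨h2, ?_⟩
      have h : HasPPC (fun n => Int.fract ((PPCCounterexample.aZ n : ℝ) * α)) ↔
          PPCCounterexample.PPC (fun n => (PPCCounterexample.aseq n : ℝ) * α) :=
        PPCCounterexample.hasPPC_iff α
      rw [h]
      exact Pool.Agent.Y471.PPC.ppc_of_foll hz h1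

end Pool.Agent.Results.MP_b61c36_nt.FullDimension
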